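import Pool.Agent.Helper23.PL.SpecD
import Pool.Agent.Helper95.HH.RingWalk
import Pool.Agent.Helper95.HH.VolCmp

/-!
# PL-D5: bypasses of a pin and of a thread between two hubs (MP_0dbcb7_co)
-/

set_option autoImplicit false

open Set
open Pool.Agent.Helper83.OP Pool.Agent.Helper83.LN Pool.Agent.Helper83.HR Pool.Agent.Helper93.HH
  Pool.Agent.Helper95.HH Pool.Agent.Helper23.PL

namespace Pool.Agent.Helper11.PL

theorem kpl_le {V : Type} {m m' : ℕ} {G : SimpleGraph V} (h : KPl m G) (hm : m ≤ m') :
    KPl m' G := by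
  obtain ⟨pos, γ, h1, h2⟩ := h
  exact ⟨pos, γ, h1, fun e he => (h2 e he).trans (by exact_mod_cast hm)⟩

theorem deg_del {V : Type} [Finite V] (G : SimpleGraph V) (s : Set (Sym2 V)) (z : V) :
    deg (G.deleteEdges s) z ≤ deg G z := by
  refine Set.ncard_le_ncard (fun v hv => ?_) (Set.toFinite _)
  exact (SimpleGraph.deleteEdges_le (G := G) s) hv

theorem sum_support {V : Type} {G : SimpleGraph V} {u v : V} (P W : G.Walk u v) (hP : P.IsPath)
    (hs : P.support ⊆ W.support) (f g : V → ℕ) (hfg : ∀ z, f z ≤ g z) :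
    (P.support.map f).sum ≤ (W.support.map g).sum := by
  obtain ⟨l, hl1, hl2⟩ := List.subperm_of_subset hP.support_nodup hs
  calc (P.support.map f).sum ≤ (P.support.map g).sum := List.sum_le_sum fun z _ => hfg z
    _ = (l.map g).sum := ((hl1.map g).sum_eq).symm
    _ ≤ (W.support.map g).sum := List.Sublist.sum_le_sum (hl2.map g) fun _ _ => Nat.zero_le _

/-- a walk of `G` which avoids `e`, in the graph with doors -/
theorem walk_ring {V P Q : Type} [Finite V] (D : HD V P Q) (hD : D.Ok) (hG : GOk D) (e : Sym2 V)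
    (ord : V → V → ℕ) (hord : IsOrd (D.G.deleteEdges {e}) D.U ord) {u v : V} (W : D.G.Walk u v)
    (he : e ∉ W.edges) (hu : u ∉ D.U) (hv : v ∉ D.U) :
    ∃ R : (ringOut (D.G.deleteEdges {e}) D.U ord).Walk (Sum.inl u) (Sum.inl v),
      R.length ≤ cw D W := by
  classical
  have hle : D.G.deleteEdges {e} ≤ D.G := SimpleGraph.deleteEdges_le _
  have hU : ∀ a ∈ D.U, ∀ b ∈ D.U, ¬ (D.G.deleteEdges {e}).Adj a b := fun a ha b hb h =>
    hub_nadj D hD hG a ha b hb (hle h)
  obtain ⟨W', hW'⟩ : ∃ W' : (D.G.deleteEdges {e}).Walk u v, W' = W.toDeleteEdge e he := ⟨_, rfl⟩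
  obtain ⟨R, hR⟩ := (ring_walk (D.G.deleteEdges {e}) D.U ord hord hU hu W'.bypass
    W'.bypass_isPath).1 hv
  refine ⟨R, hR.trans ?_⟩
  unfold cw
  refine Nat.add_le_add ?_ ?_
  · refine W'.length_bypass_le_length.trans ?_
    rw [hW', SimpleGraph.Walk.length_transfer]
  · have h1 := sum_support W'.bypass W' W'.bypass_isPath W'.support_bypass_subset_support
      (fun z => if z ∈ D.U ∧ z ≠ v then deg (D.G.deleteEdges {e}) z else 0)
      (fun z => if z ∈ D.U then deg D.G z else 0) (by
        intro z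
        have := deg_del D.G {e} z
        split_ifs with h1 h2
        · exact this
        · exact absurd h1.1 h2
        · exact Nat.zero_le _
        · exact le_rfl)
    have h2 : W'.support = W.support := by
      rw [hW', SimpleGraph.Walk.support_transfer]
    rw [h2] at h1
    exact h1

/-- a walk of `N`, in the graph with doors -/
theorem nwalk_ring {V P Q : Type} [Finite V] (D : HD V P Q) (hD : D.Ok) (e : Sym2 V)
    (ord : V → V → ℕ) (he : e ∉ D.N.edgeSet) {u v : V} (A : D.N.Walk u v) (hu : u ∉ D.U) :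
    ∃ R : (ringOut (D.G.deleteEdges {e}) D.U ord).Walk (Sum.inl u) (Sum.inl v),
      R.length = A.length := by
  have hle : D.N ≤ D.G.deleteEdges {e} := by
    intro a b hab
    rw [SimpleGraph.deleteEdges_adj]
    refine ⟨hD.N_le hab, fun h => he ?_⟩
    rw [Set.mem_singleton_iff] at h
    rw [← h]
    exact hab
  have hU : ∀ (a b : V) (A : D.N.Walk a b), a ∉ D.U → ∀ z ∈ A.support, z ∉ D.U := by
    intro a b A
    induction A with
    | nil =>
      intro ha z hz
      rw [SimpleGraph.Walk.support_nil, List.mem_singleton] at hz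
      rw [hz]
      exact ha
    | cons h q ih =>
      intro ha z hz
      rw [SimpleGraph.Walk.support_cons, List.mem_cons] at hz
      rcases hz with hz | hz
      · rw [hz]
        exact ha
      · exact ih (hD.N_U _ _ h.symm) z hz
  obtain ⟨R, hR, -⟩ := ring_out_walk (D.G.deleteEdges {e}) D.U ord (A.mapLe hle) (by
    intro z hz
    rw [SimpleGraph.Walk.support_mapLe_eq_support] at hz
    exact hU _ _ A hu z hz)
  refine ⟨R, hR.trans ?_⟩
  exact SimpleGraph.Walk.length_map _ _

/-- the edge of a pin at its foot -/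
theorem pin_edge {V P Q : Type} (D : HD V P Q) (hD : D.Ok) (p : P) :
    s(D.x p, (D.w p).getVert 1) ∈ (D.w p).edges ∧ (D.w p).getVert 1 ≠ D.x p ∧
      (D.w p).getVert 1 ≠ D.hub p ∧ (D.w p).getVert 1 ∈ (D.w p).support := by
  have h1 := hD.r_pos
  have h2 := hD.w_ge p
  have hinj := (hD.w_path p).getVert_injOn
  refine ⟨?_, ?_, ?_, SimpleGraph.Walk.getVert_mem_support _ _⟩
  · rw [SimpleGraph.Walk.mk_mem_edges_iff_exists]
    exact ⟨0, by omega, by rw [SimpleGraph.Walk.getVert_zero, Nat.zero_add]⟩
  · intro h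
    have h3 := hinj (show (1 : ℕ) ∈ {i | i ≤ (D.w p).length} by
      show 1 ≤ (D.w p).length
      omega) (show (0 : ℕ) ∈ {i | i ≤ (D.w p).length} from Nat.zero_le _) (by
      rw [SimpleGraph.Walk.getVert_zero]
      exact h)
    omega
  · intro h
    have h3 := hinj (show (1 : ℕ) ∈ {i | i ≤ (D.w p).length} by
      show 1 ≤ (D.w p).length
      omega) (show (D.w p).length ∈ {i | i ≤ (D.w p).length} from le_refl (D.w p).length) (by
      rw [SimpleGraph.Walk.getVert_length]
      exact h)
    omega

/-- **PL-D5 (p1).** -/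
theorem draw_p1 : ∃ c : ℕ, ∀ (V P Q : Type) [Finite V] [Finite P] [Finite Q] (D : HD V P Q)
    (k : ℕ), D.Ok → GOk D → 1 ≤ k →
    (∀ e ∈ D.G.edgeSet, KPl 1 (D.G.deleteEdges {e})) →
    ∀ p, Byp D (Fp D p) (k * (D.w p).length) (D.x p) (D.hub p) →
    KPl (c * (D.Kh * D.r * k) ^ c) D.G := by
  classical
  obtain ⟨c, hmove⟩ := move
  refine ⟨64 * c + 6, ?_⟩
  intro V P Q _ _ _ D k hD hG hk hcrit p hbyp
  obtain ⟨y, hy, W, hW1, hW2⟩ := hbyp
  obtain ⟨he1, he2, he3, he4⟩ := pin_edge D hD p
  obtain ⟨e, he⟩ : ∃ e, e = s(D.x p, (D.w p).getVert 1) := ⟨_, rfl⟩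
  rw [← he] at he1
  have hr := hD.r_pos
  have hge := hD.w_ge p
  have hKr : 3 ≤ D.Kh * D.r := (hD.three p).trans (hD.dg_le _ (hD.x_U p))
  have hxN : D.x p ∈ D.VN := Or.inr ⟨p, rfl⟩
  have heN : e ∉ D.N.edgeSet := by
    rw [he]
    intro h
    have h1 : D.N.Adj (D.x p) ((D.w p).getVert 1) := h
    refine hD.w_N p _ he4 he2 (Or.inl ?_)
    intro h0
    have h2 : D.x p ∈ D.N.neighborSet ((D.w p).getVert 1) := h1.symm
    unfold deg at h0
    rw [Set.ncard_eq_zero (Set.toFinite _)] at h0
    rw [h0] at h2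
    exact h2
  have heq : ∀ q, e ∈ (D.w q).edges → q = p := by
    intro q hq
    rw [he] at hq
    have h1 : (D.w p).getVert 1 ∈ (D.w q).support := (D.w q).snd_mem_support_of_mem_edges hq
    exact (hD.w_disj p q _ he4 h1 he2 he3).symm
  have hle : D.G.deleteEdges {e} ≤ D.G := SimpleGraph.deleteEdges_le _
  have hU : ∀ a ∈ D.U, ∀ b ∈ D.U, ¬ (D.G.deleteEdges {e}).Adj a b := fun a ha b hb h =>
    hub_nadj D hD hG a ha b hb (hle h)
  have hyU : y ∉ D.U := fun h => hub_nadj D hD hG _ (hD.hub_U p) _ h hy.1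
  have hM : 2 * (D.Kh * D.r * k) = D.Kh * D.r * k + D.Kh * D.r * k := by ring
  have hKk : D.Kh * D.r ≤ D.Kh * D.r * k := Nat.le_mul_of_pos_right _ hk
  have hKk' : k ≤ D.Kh * D.r * k := Nat.le_mul_of_pos_left _ (by omega)
  have hfin := hmove V P Q D p e (2 * (D.Kh * D.r * k)) {D.x p} hD hG he1
    (hcrit e ((D.w p).edges_subset_edgeSet he1)) (by omega) (by omega)
    (by rw [Set.ncard_singleton]; omega) rfl (by
      intro v hv
      rw [Set.mem_singleton_iff] at hv
      subst hv
      exact ⟨hxN, hD.three p⟩) (by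
    intro ord hord
    refine ⟨fun v => Sum.inl v, ?_, ?_, ?_, ?_⟩
    · intro v hv a ha h
      rw [Set.mem_singleton_iff] at hv
      subst hv
      have h1 : D.x p = a := Sum.inl.inj h
      exact hD.x_U p (h1 ▸ ha)
    · intro u hu v hv A hA
      rw [Set.mem_singleton_iff] at hu hv
      subst hu
      subst hv
      exact ⟨SimpleGraph.Walk.nil, by simp⟩
    · intro u hu v _ _ _ A _ _
      rw [Set.mem_singleton_iff] at hu
      subst hu
      obtain ⟨R, hR⟩ := nwalk_ring D hD e ord heN A (hD.x_U p)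
      refine ⟨R, ?_⟩
      rw [hR]
      exact Nat.le_mul_of_pos_left _ (by omega)
    · intro q hq
      rw [Set.mem_singleton_iff] at hq
      by_cases hqp : q = p
      · subst hqp
        have hadj : (D.G.deleteEdges {e}).Adj y (D.hub q) := by
          rw [SimpleGraph.deleteEdges_adj]
          refine ⟨hy.1.symm, fun h => hy.2 ?_⟩
          rw [Set.mem_singleton_iff] at h
          rw [Sym2.eq_swap, h]
          exact he1
        obtain ⟨R, hR⟩ := walk_ring D hD hG e ord hord W (fun h => hW1 e h he1) (hD.x_U q) hyU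
        have hstep : (ringOut (D.G.deleteEdges {e}) D.U ord).Adj (Sum.inl y)
            (Sum.inr (mkDor y (D.hub q) hadj (hD.hub_U q))) :=
          ringOut_door (mkDor y (D.hub q) hadj (hD.hub_U q)) hyU
        refine ⟨mkDor y (D.hub q) hadj (hD.hub_U q), rfl,
          R.append (SimpleGraph.Walk.cons hstep SimpleGraph.Walk.nil), ?_⟩
        rw [SimpleGraph.Walk.length_append, SimpleGraph.Walk.length_cons,
          SimpleGraph.Walk.length_nil]
        have h1 : k * (D.w q).length + (D.w q).length ≤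
            2 * (D.Kh * D.r * k) * (D.w q).length := by
          calc k * (D.w q).length + (D.w q).length = (k + 1) * (D.w q).length := by ring
            _ ≤ _ := Nat.mul_le_mul_right _ (by omega)
        omega
      · have heq' : e ∉ (D.w q).edges := fun h => hqp (heq q h)
        obtain ⟨P', hP'⟩ : ∃ P' : (D.G.deleteEdges {e}).Walk (D.x q) (D.hub q),
          P' = (D.w q).toDeleteEdge e heq' := ⟨_, rfl⟩
        have hPp : P'.IsPath := by
          rw [hP']
          exact (hD.w_path q).transfer _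
        obtain ⟨d, hd, R, hR⟩ := (ring_walk (D.G.deleteEdges {e}) D.U ord hord hU (hD.x_U q) P'
          hPp).2 (hD.hub_U q)
        refine ⟨d, hd, R, hR.trans ?_⟩
        have h2 : P'.support = (D.w q).support := by
          rw [hP', SimpleGraph.Walk.support_transfer]
        have h3 : P'.length = (D.w q).length := by
          rw [hP', SimpleGraph.Walk.length_transfer]
        have h4 : (P'.support.map (fun z => if z ∈ D.U ∧ z ≠ D.hub q then
            deg (D.G.deleteEdges {e}) z else 0)).sum = 0 := by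
          rw [List.sum_eq_zero_iff]
          intro t ht
          rw [List.mem_map] at ht
          obtain ⟨z, hz, hzt⟩ := ht
          rw [h2] at hz
          rw [← hzt, if_neg]
          rintro ⟨h5, h6⟩
          exact hD.w_U q z hz h6 h5
        rw [h4, h3, Nat.add_zero]
        exact Nat.le_mul_of_pos_left _ (by omega))
  refine kpl_le hfin ?_
  have h1 : (2 * (D.Kh * D.r * k)) ^ 6 = 64 * (D.Kh * D.r * k) ^ 6 := by ring
  rw [h1]
  calc c * (64 * (D.Kh * D.r * k) ^ 6) = 64 * c * (D.Kh * D.r * k) ^ 6 := by ring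
    _ ≤ (64 * c + 6) * (D.Kh * D.r * k) ^ (64 * c + 6) :=
        Nat.mul_le_mul (by omega) (Nat.pow_le_pow_right (by omega) (by omega))

/-- an edge at an inner vertex of a thread between two hubs is on the thread -/
theorem edge_inner {V P Q : Type} (D : HD V P Q) (hD : D.Ok) (hG : GOk D) (q : Q) {z v : V}
    (hz : z ∈ (D.wq q).support) (h1 : z ≠ D.ha q) (h2 : z ≠ D.hb q) (h : D.G.Adj z v) :
    s(z, v) ∈ (D.wq q).edges := by
  have hzU := hD.wq_U q z hz h1 h2
  rcases hG.cover z v h with h3 | ⟨p, h3⟩ | ⟨q', h3⟩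
  · exfalso
    refine hD.wq_N q z hz ?_
    by_contra h4
    have h5 : ¬ (deg D.N z ≠ 0) := fun h6 => h4 (Or.inl h6)
    rw [not_not] at h5
    unfold deg at h5
    by_cases hf : (D.N.neighborSet z).Finite
    · rw [Set.ncard_eq_zero hf] at h5
      have h6 : v ∈ D.N.neighborSet z := h3
      rw [h5] at h6
      exact h6
    · have h7 := hG.wq_deg q z hz h1 h2
      unfold deg at h7
      have h8 : (D.G.neighborSet z).Finite := Set.finite_of_ncard_ne_zero (by omega)
      exact hf (h8.subset fun w hw => hD.N_le hw)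
  · exfalso
    have h4 : z ∈ (D.w p).support := (D.w p).fst_mem_support_of_mem_edges h3
    have h5 := hD.wq_w q p z hz h4
    exact hzU (h5 ▸ hD.hub_U p)
  · have h4 : z ∈ (D.wq q').support := (D.wq q').fst_mem_support_of_mem_edges h3
    have h5 := hD.wq_disj q q' z hz h4 hzU
    rw [h5]
    exact h3

theorem path_edge_inj {V : Type} {G : SimpleGraph V} {a b : V} {w : G.Walk a b} (hw : w.IsPath)
    {i j : ℕ} (hi : i < w.length) (hj : j < w.length)
    (h : s(w.getVert i, w.getVert (i + 1)) = s(w.getVert j, w.getVert (j + 1))) : i = j := by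
  have hinj : ∀ m n, m ≤ w.length → n ≤ w.length → w.getVert m = w.getVert n → m = n :=
    fun m n hm hn h => hw.getVert_injOn hm hn h
  rw [Sym2.eq_iff] at h
  rcases h with ⟨h1, -⟩ | ⟨h1, h2⟩
  · exact hinj i j hi.le hj.le h1
  · have e1 := hinj i (j + 1) hi.le hj h1
    have e2 := hinj (i + 1) j hi hj.le h2
    omega

/-- the edges which are not on the thread `q` -/
def OtE {V P Q : Type} (D : HD V P Q) (q : Q) : Type :=
  {f : Sym2 V // f ∈ D.G.edgeSet ∧ f ∉ (D.wq q).edges}

theorem exists_or {V P Q : Type} (D : HD V P Q) (hD : D.Ok) (hG : GOk D) (q : Q) :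
    ∀ f : OtE D q, ∃ a b : V, f.1 = s(a, b) ∧ a ∉ D.U := by
  rintro ⟨f, hf⟩
  induction f using Sym2.ind with
  | _ u v =>
    by_cases hu : u ∈ D.U
    · refine ⟨v, u, Sym2.eq_swap, fun hv => ?_⟩
      exact hub_nadj D hD hG u hu v hv hf.1
    · exact ⟨u, v, rfl, hu⟩

/-- the vertices of the strands -/
noncomputable def stx {V P Q : Type} (D : HD V P Q) (q : Q) (a b : OtE D q → V) :
    OtE D q ⊕ Bool → ℕ → V
  | Sum.inl f, t => if t = 0 then a f else b f
  | Sum.inr false, t => if t = 0 then (D.wq q).getVert 1 else (D.wq q).getVert 0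
  | Sum.inr true, t => (D.wq q).getVert (t + 1)

/-- the lengths of the strands -/
def stl {V P Q : Type} (D : HD V P Q) (q : Q) : OtE D q ⊕ Bool → ℕ
  | Sum.inl _ => 1
  | Sum.inr false => 1
  | Sum.inr true => (D.wq q).length - 1

/-- the decomposition into unit edges and two strands on the thread `q` -/
theorem exists_threads {V P Q : Type} (D : HD V P Q) (hD : D.Ok) (hG : GOk D) (q : Q)
    (a b : OtE D q → V) (hab : ∀ f, f.1 = s(a f, b f)) :
    ∃ Th : Threads D.G (OtE D q ⊕ Bool), Th.len = stl D q ∧ Th.x = stx D q a b := by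
  have hr := hD.r_pos
  have hge := hG.wq_ge q
  have hinj : ∀ m n, m ≤ (D.wq q).length → n ≤ (D.wq q).length →
      (D.wq q).getVert m = (D.wq q).getVert n → m = n :=
    fun m n hm hn h => (hD.wq_path q).getVert_injOn hm hn h
  have hadj : ∀ f : OtE D q, D.G.Adj (a f) (b f) := fun f => by
    have h := f.2.1
    rw [hab f] at h
    exact h
  have hfirst : D.G.Adj ((D.wq q).getVert 0) ((D.wq q).getVert 1) :=
    (D.wq q).adj_getVert_succ (i := 0) (by omega)
  have hinner : ∀ m, 0 < m → m < (D.wq q).length → ∀ f : OtE D q, a f ≠ (D.wq q).getVert m ∧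
      b f ≠ (D.wq q).getVert m := by
    intro m hm hm' f
    have g1 : (D.wq q).getVert m ∈ (D.wq q).support := SimpleGraph.Walk.getVert_mem_support _ _
    have g2 : (D.wq q).getVert m ≠ D.ha q := by
      intro h
      have := hinj m 0 hm'.le (Nat.zero_le _) (by rw [SimpleGraph.Walk.getVert_zero]; exact h)
      omega
    have g3 : (D.wq q).getVert m ≠ D.hb q := by
      intro h
      have := hinj m _ hm'.le le_rfl (by rw [SimpleGraph.Walk.getVert_length]; exact h)
      omega
    constructor
    · intro h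
      have h4 := edge_inner D hD hG q g1 g2 g3 (h ▸ hadj f)
      refine f.2.2 ?_
      rw [hab f, h]
      exact h4
    · intro h
      have h4 := edge_inner D hD hG q g1 g2 g3 (h ▸ (hadj f).symm)
      refine f.2.2 ?_
      rw [hab f, h, Sym2.eq_swap]
      exact h4
  refine ⟨⟨stl D q, stx D q a b, ?_, ?_, ?_, ?_, ?_, ?_⟩, rfl, rfl⟩
  · rintro (f | _ | _)
    · exact le_rfl
    · exact le_rfl
    · show 1 ≤ (D.wq q).length - 1
      omega
  · rintro (f | _ | _) s t hs ht h
    · have hs' : s ≤ 1 := hs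
      have ht' : t ≤ 1 := ht
      simp only [stx] at h
      have hne := (hadj f).ne
      split_ifs at h with h1 h2 h2
      · omega
      · exact absurd h hne
      · exact absurd h.symm hne
      · omega
    · have hs' : s ≤ 1 := hs
      have ht' : t ≤ 1 := ht
      simp only [stx] at h
      have hne := hfirst.ne
      split_ifs at h with h1 h2 h2
      · omega
      · exact absurd h.symm hne
      · exact absurd h hne
      · omega
    · have hs' : s ≤ (D.wq q).length - 1 := hs
      have ht' : t ≤ (D.wq q).length - 1 := ht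
      simp only [stx] at h
      have := hinj (s + 1) (t + 1) (by omega) (by omega) h
      omega
  · rintro (f | _ | _) t ht
    · have ht' : t < 1 := ht
      have h0 : t = 0 := by omega
      subst h0
      exact hadj f
    · have ht' : t < 1 := ht
      have h0 : t = 0 := by omega
      subst h0
      exact hfirst.symm
    · have ht' : t < (D.wq q).length - 1 := ht
      exact (D.wq q).adj_getVert_succ (i := t + 1) (by omega)
  · intro u v huv
    by_cases he : s(u, v) ∈ (D.wq q).edges
    · rw [SimpleGraph.Walk.mk_mem_edges_iff_exists] at he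
      obtain ⟨i, hi, hi2⟩ := he
      rcases Nat.eq_zero_or_pos i with h0 | h0
      · subst h0
        refine ⟨Sum.inr false, 0, Nat.one_pos, ?_⟩
        rw [← hi2]
        show _ = s((D.wq q).getVert 1, (D.wq q).getVert 0)
        rw [Sym2.eq_swap]
      · obtain ⟨j, rfl⟩ : ∃ j, i = j + 1 := ⟨i - 1, by omega⟩
        refine ⟨Sum.inr true, j, ?_, hi2.symm⟩
        show j < (D.wq q).length - 1
        omega
    · refine ⟨Sum.inl ⟨s(u, v), huv, he⟩, 0, Nat.one_pos, ?_⟩
      exact hab ⟨s(u, v), huv, he⟩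
  · -- the edges
    have hE1 : ∀ f : OtE D q, s(stx D q a b (Sum.inl f) 0, stx D q a b (Sum.inl f) (0 + 1)) =
        f.1 := fun f => (hab f).symm
    have hE2 : s(stx D q a b (Sum.inr false) 0, stx D q a b (Sum.inr false) (0 + 1)) =
        s((D.wq q).getVert 0, (D.wq q).getVert (0 + 1)) := Sym2.eq_swap
    have hmem : ∀ i < (D.wq q).length,
        s((D.wq q).getVert i, (D.wq q).getVert (i + 1)) ∈ (D.wq q).edges := fun i hi => by
      rw [SimpleGraph.Walk.mk_mem_edges_iff_exists]
      exact ⟨i, hi, rfl⟩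
    rintro (f | _ | _) (f' | _ | _) t t' ht ht' h
    · have h1 : t < 1 := ht
      have h2 : t' < 1 := ht'
      have e1 : t = 0 := by omega
      have e2 : t' = 0 := by omega
      subst e1
      subst e2
      rw [hE1, hE1] at h
      exact ⟨congrArg Sum.inl (Subtype.ext h), rfl⟩
    · exfalso
      have h1 : t < 1 := ht
      have h2 : t' < 1 := ht'
      have e1 : t = 0 := by omega
      have e2 : t' = 0 := by omega
      subst e1
      subst e2
      rw [hE1, hE2] at h
      exact f.2.2 (h ▸ hmem 0 (by omega))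
    · exfalso
      have h1 : t < 1 := ht
      have h2 : t' < (D.wq q).length - 1 := ht'
      have e1 : t = 0 := by omega
      subst e1
      rw [hE1] at h
      exact f.2.2 (h ▸ hmem (t' + 1) (by omega))
    · exfalso
      have h1 : t < 1 := ht
      have h2 : t' < 1 := ht'
      have e1 : t = 0 := by omega
      have e2 : t' = 0 := by omega
      subst e1
      subst e2
      rw [hE1, hE2] at h
      exact f'.2.2 (h ▸ hmem 0 (by omega))
    · have h1 : t < 1 := ht
      have h2 : t' < 1 := ht'
      exact ⟨rfl, by omega⟩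
    · exfalso
      have h1 : t < 1 := ht
      have h2 : t' < (D.wq q).length - 1 := ht'
      have e1 : t = 0 := by omega
      subst e1
      rw [hE2] at h
      have := path_edge_inj (hD.wq_path q) (i := 0) (j := t' + 1) (by omega) (by omega) h
      omega
    · exfalso
      have h1 : t < (D.wq q).length - 1 := ht
      have h2 : t' < 1 := ht'
      have e2 : t' = 0 := by omega
      subst e2
      rw [hE1] at h
      exact f'.2.2 (h ▸ hmem (t + 1) (by omega))
    · exfalso
      have h1 : t < (D.wq q).length - 1 := ht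
      have h2 : t' < 1 := ht'
      have e2 : t' = 0 := by omega
      subst e2
      rw [hE2] at h
      have := path_edge_inj (hD.wq_path q) (i := t + 1) (j := 0) (by omega) (by omega) h
      omega
    · have h1 : t < (D.wq q).length - 1 := ht
      have h2 : t' < (D.wq q).length - 1 := ht'
      have := path_edge_inj (hD.wq_path q) (i := t + 1) (j := t' + 1) (by omega) (by omega) h
      exact ⟨rfl, by omega⟩
  · rintro (f | _ | _) t h0 ht (f' | _ | _) t' ht' h
    · have h1 : t < 1 := ht
      omega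
    · have h1 : t < 1 := ht
      omega
    · have h1 : t < 1 := ht
      omega
    · have h1 : t < 1 := ht
      omega
    · have h1 : t < 1 := ht
      omega
    · have h1 : t < 1 := ht
      omega
    · exfalso
      have h1 : t < (D.wq q).length - 1 := ht
      obtain ⟨g1, g2⟩ := hinner (t + 1) (by omega) (by omega) f'
      simp only [stx] at h
      split_ifs at h
      · exact g1 h
      · exact g2 h
    · exfalso
      have h1 : t < (D.wq q).length - 1 := ht
      simp only [stx] at h
      split_ifs at h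
      · have := hinj 1 (t + 1) (by omega) (by omega) h
        omega
      · have := hinj 0 (t + 1) (by omega) (by omega) h
        omega
    · rfl

theorem cast_walk {α : Type} {R : SimpleGraph α} {s s' t : α} (h : s = s') {n : ℕ}
    (hp : ∃ p : R.Walk s' t, p.length ≤ n) : ∃ p : R.Walk s t, p.length ≤ n := by
  subst h
  exact hp

/-- **PL-D5 (q1).** -/
theorem draw_q1 : ∃ c : ℕ, ∀ (V P Q : Type) [Finite V] [Finite P] [Finite Q] (D : HD V P Q)
    (k : ℕ), D.Ok → GOk D → 1 ≤ k →
    (∀ e ∈ D.G.edgeSet, KPl 1 (D.G.deleteEdges {e})) →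
    ∀ q y z, Nb D (Fq D q) (D.ha q) y → Nb D (Fq D q) (D.hb q) z →
    Rch D (Fq D q) (k * (D.wq q).length) y z →
    KPl (c * (D.Kh * D.r * k) ^ c) D.G := by
  classical
  obtain ⟨c, hlite⟩ := lite
  refine ⟨16 * c + 2, ?_⟩
  intro V P Q _ _ _ D k hD hG hk hcrit q y z hy hz hrch
  obtain ⟨W, hW1, hW2⟩ := hrch
  have hr := hD.r_pos
  have hge := hG.wq_ge q
  have hinj : ∀ m n, m ≤ (D.wq q).length → n ≤ (D.wq q).length →
      (D.wq q).getVert m = (D.wq q).getVert n → m = n :=
    fun m n hm hn h => (hD.wq_path q).getVert_injOn hm hn h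
  have hins : ∀ m, 0 < m → m < (D.wq q).length → (D.wq q).getVert m ≠ D.ha q ∧
      (D.wq q).getVert m ≠ D.hb q := by
    intro m hm hm'
    constructor
    · intro h
      have := hinj m 0 hm'.le (Nat.zero_le _) (by rw [SimpleGraph.Walk.getVert_zero]; exact h)
      omega
    · intro h
      have := hinj m _ hm'.le le_rfl (by rw [SimpleGraph.Walk.getVert_length]; exact h)
      omega
  have hinU : ∀ m, 0 < m → m < (D.wq q).length → (D.wq q).getVert m ∉ D.U := fun m hm hm' =>
    hD.wq_U q _ (SimpleGraph.Walk.getVert_mem_support _ _) (hins m hm hm').1 (hins m hm hm').2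
  obtain ⟨y0, hy0⟩ : ∃ y0, y0 = (D.wq q).getVert 1 := ⟨_, rfl⟩
  have hy0s : y0 ∈ (D.wq q).support := by
    rw [hy0]
    exact SimpleGraph.Walk.getVert_mem_support _ _
  have hy0U : y0 ∉ D.U := by
    rw [hy0]
    exact hinU 1 one_pos (by omega)
  obtain ⟨hy0a, hy0b⟩ := hins 1 one_pos (by omega)
  rw [← hy0] at hy0a hy0b
  have hKr : 2 ≤ D.Kh * D.r := by
    have h1 := hG.wq_deg q y0 hy0s hy0a hy0b
    have h2 := hG.deg_le y0 hy0U
    omega
  obtain ⟨e, he⟩ : ∃ e, e = s(D.ha q, y0) := ⟨_, rfl⟩
  have he1 : e ∈ (D.wq q).edges := by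
    rw [he, SimpleGraph.Walk.mk_mem_edges_iff_exists]
    exact ⟨0, by omega, by rw [SimpleGraph.Walk.getVert_zero, Nat.zero_add, hy0]⟩
  have hyU : y ∉ D.U := fun h => hub_nadj D hD hG _ (hD.ha_U q) _ h hy.1
  have hzU : z ∉ D.U := fun h => hub_nadj D hD hG _ (hD.hb_U q) _ h hz.1
  choose a b hab haU using exists_or D hD hG q
  obtain ⟨Th, hTl, hTx⟩ := exists_threads D hD hG q a b hab
  have hfin : Finite (OtE D q) := Subtype.finite
  have hfinT : Fintype (OtE D q ⊕ Bool) := Fintype.ofFinite _
  have hadjy : (D.G.deleteEdges {e}).Adj y (D.ha q) := by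
    rw [SimpleGraph.deleteEdges_adj]
    refine ⟨hy.1.symm, fun h => hy.2 ?_⟩
    rw [Set.mem_singleton_iff] at h
    rw [Sym2.eq_swap, h]
    exact he1
  have hadjz : (D.G.deleteEdges {e}).Adj z (D.hb q) := by
    rw [SimpleGraph.deleteEdges_adj]
    refine ⟨hz.1.symm, fun h => hz.2 ?_⟩
    rw [Set.mem_singleton_iff] at h
    rw [Sym2.eq_swap, h]
    exact he1
  have hne : ∀ f : OtE D q, a f ≠ y0 ∧ b f ≠ y0 := by
    intro f
    have hadj : D.G.Adj (a f) (b f) := by
      have h := f.2.1
      rw [hab f] at h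
      exact h
    constructor
    · intro h
      refine f.2.2 ?_
      rw [hab f, h]
      exact edge_inner D hD hG q hy0s hy0a hy0b (h ▸ hadj)
    · intro h
      refine f.2.2 ?_
      rw [hab f, h, Sym2.eq_swap]
      exact edge_inner D hD hG q hy0s hy0a hy0b (h ▸ hadj.symm)
  have hKk : D.Kh * D.r ≤ D.Kh * D.r * k := Nat.le_mul_of_pos_right _ hk
  have hKk' : 2 * k ≤ D.Kh * D.r * k := Nat.mul_le_mul_right _ hKr
  have hres := hlite V (OtE D q ⊕ Bool) D.G D.U Th e (4 * (D.Kh * D.r * k))
    {Sum.inr false, Sum.inr true} (hcrit e ((D.wq q).edges_subset_edgeSet he1)) (by omega)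
    (hub_nadj D hD hG) (fun v hv => (hG.deg_le v hv).trans (by omega))
    (Finset.card_le_two.trans (by omega)) ?_ ?_ ?_ ?_
  · refine kpl_le hres ?_
    have h1 : (4 * (D.Kh * D.r * k)) ^ 2 = 16 * (D.Kh * D.r * k) ^ 2 := by ring
    rw [h1]
    calc c * (16 * (D.Kh * D.r * k) ^ 2) = 16 * c * (D.Kh * D.r * k) ^ 2 := by ring
      _ ≤ (16 * c + 2) * (D.Kh * D.r * k) ^ (16 * c + 2) :=
          Nat.mul_le_mul (by omega) (Nat.pow_le_pow_right (by omega) (by omega))
  · rintro (f | _ | _) hτ
    · rw [hTl]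
      rfl
    · exact absurd (by simp) hτ
    · exact absurd (by simp) hτ
  · rw [hTl, hTx]
    rintro (f | _ | _) t ht
    · have h1 : t < 1 := ht
      have h0 : t = 0 := by omega
      subst h0
      exact haU f
    · have h1 : t < 1 := ht
      have h0 : t = 0 := by omega
      subst h0
      exact hinU 1 one_pos (by omega)
    · have h1 : t < (D.wq q).length - 1 := ht
      exact hinU (t + 1) (by omega) (by omega)
  · rw [hTl, hTx]
    rintro (f | _ | _) hτ t ht
    · have h1 : t < 1 := ht
      have h0 : t = 0 := by omega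
      subst h0
      intro h
      have h2 : s(stx D q a b (Sum.inl f) 0, stx D q a b (Sum.inl f) (0 + 1)) = f.1 :=
        (hab f).symm
      rw [h2] at h
      exact f.2.2 (h ▸ he1)
    · exact absurd (by simp) hτ
    · exact absurd (by simp) hτ
  · intro ord hord
    rw [hTl, hTx]
    have hdy : D.ha q ∈ D.U := hD.ha_U q
    refine ⟨fun v => if v = y0 then Sum.inr (mkDor y (D.ha q) hadjy hdy) else Sum.inl v,
      ?_, ?_, ?_, ?_⟩
    · intro v hv a' ha' h
      by_cases h1 : v = y0
      · simp only [if_pos h1] at h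
        cases h
      · simp only [if_neg h1] at h
        exact hv (Sum.inl.inj h ▸ ha')
    · rintro (f | _ | _) hτ
      · refine ⟨?_, fun _ => ?_⟩
        · show (if a f = y0 then _ else Sum.inl (a f)) = Sum.inl (a f)
          rw [if_neg (hne f).1]
        · show (if b f = y0 then _ else Sum.inl (b f)) = Sum.inl (b f)
          rw [if_neg (hne f).2]
      · exact absurd (by simp) hτ
      · exact absurd (by simp) hτ
    · rintro (f | _ | _) hτ hU
      · simp at hτ
      · exfalso
        apply hU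
        show (D.wq q).getVert 0 ∈ D.U
        rw [SimpleGraph.Walk.getVert_zero]
        exact hD.ha_U q
      · exfalso
        apply hU
        show (D.wq q).getVert ((D.wq q).length - 1 + 1) ∈ D.U
        rw [Nat.sub_add_cancel (by omega), SimpleGraph.Walk.getVert_length]
        exact hD.hb_U q
    · rintro (f | _ | _) hτ hU
      · simp at hτ
      · refine ⟨mkDor y (D.ha q) hadjy hdy, ?_, ?_⟩
        · show D.ha q = (D.wq q).getVert 0
          rw [SimpleGraph.Walk.getVert_zero]
        · have hpl : (if stx D q a b (Sum.inr false) 0 = y0 then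
              (Sum.inr (mkDor y (D.ha q) hadjy hdy) : V ⊕ Dor (D.G.deleteEdges {e}) D.U) else
              Sum.inl (stx D q a b (Sum.inr false) 0)) = Sum.inr (mkDor y (D.ha q) hadjy hdy) :=
            if_pos hy0.symm
          exact cast_walk hpl ⟨SimpleGraph.Walk.nil, Nat.zero_le _⟩
      · refine ⟨mkDor z (D.hb q) hadjz (hD.hb_U q), ?_, ?_⟩
        · show D.hb q = (D.wq q).getVert ((D.wq q).length - 1 + 1)
          rw [Nat.sub_add_cancel (by omega), SimpleGraph.Walk.getVert_length]
        · have hpl : (if stx D q a b (Sum.inr true) 0 = y0 then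
              (Sum.inr (mkDor y (D.ha q) hadjy hdy) : V ⊕ Dor (D.G.deleteEdges {e}) D.U) else
              Sum.inl (stx D q a b (Sum.inr true) 0)) = Sum.inr (mkDor y (D.ha q) hadjy hdy) :=
            if_pos hy0.symm
          refine cast_walk hpl ?_
          show ∃ p : (ringOut (D.G.deleteEdges {e}) D.U ord).Walk
            (Sum.inr (mkDor y (D.ha q) hadjy hdy)) (Sum.inr (mkDor z (D.hb q) hadjz (hD.hb_U q))),
              p.length ≤ 4 * (D.Kh * D.r * k) * ((D.wq q).length - 1)
          obtain ⟨R, hR⟩ := walk_ring D hD hG e ord hord W (fun h => hW1 e h he1) hyU hzU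
          have hs1 : (ringOut (D.G.deleteEdges {e}) D.U ord).Adj
              (Sum.inr (mkDor y (D.ha q) hadjy hdy)) (Sum.inl y) :=
            (ringOut_door (mkDor y (D.ha q) hadjy hdy) hyU).symm
          have hs2 : (ringOut (D.G.deleteEdges {e}) D.U ord).Adj (Sum.inl z)
              (Sum.inr (mkDor z (D.hb q) hadjz (hD.hb_U q))) :=
            ringOut_door (mkDor z (D.hb q) hadjz (hD.hb_U q)) hzU
          refine ⟨SimpleGraph.Walk.cons hs1 (R.append (SimpleGraph.Walk.cons hs2
            SimpleGraph.Walk.nil)), ?_⟩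
          rw [SimpleGraph.Walk.length_cons, SimpleGraph.Walk.length_append,
            SimpleGraph.Walk.length_cons, SimpleGraph.Walk.length_nil]
          obtain ⟨ℓ, hℓ⟩ : ∃ ℓ, (D.wq q).length = ℓ + 2 := ⟨(D.wq q).length - 2, by omega⟩
          rw [hℓ] at hW2 ⊢
          have h1 : k * (ℓ + 2) + 2 ≤ 4 * (D.Kh * D.r * k) * (ℓ + 2 - 1) := by
            have e1 : ℓ + 2 - 1 = ℓ + 1 := by omega
            rw [e1]
            calc k * (ℓ + 2) + 2 ≤ 4 * k * (ℓ + 1) := by nlinarith
              _ ≤ _ := Nat.mul_le_mul_right _ (by omega)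
          omega

end Pool.Agent.Helper11.PL
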